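import Mathlib
import Pool.Agent.H253_GQ.Core
import Pool.Agent.Results.MP_a3aa3c_co.NoGQ4_11

/-!
# No generalized quadrangle of order `(s, s ^ 2 - s)`, `s ≥ 3`; the second question: `(4, 12)`

The incidence structure axioms `IsGQ` are those of the answer to the first question
(`NoGQ4_11`). The linear algebra is in `Pool.Agent.H253_GQ.Core`.
-/

set_option autoImplicit false

universe u v

namespace Pool.Agent.Results.MP_a3aa3c_co.NoGQSquareMinusS

open Pool.Agent.Results.MP_a3aa3c_co.NoGQ4_11

/-- The incidence structure with points `P`, lines `B` and incidence relation `I` satisfies the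
axioms of a generalized quadrangle of order `(s, t)`:
* each line is incident with exactly `s + 1` points,
* each point is incident with exactly `t + 1` lines,
* two distinct points are incident with at most one common line,
* for a point `p` and a line `L` that are not incident there is exactly one pair `(q, M)` of a
  point and a line with `q` on `L`, `M` through `p`, and `q` on `M`. -/
structure IsQuadrangle {P : Type u} {B : Type v} (I : P → B → Prop) (s t : ℕ) : Prop where
  line_card : ∀ L : B, Nat.card {p : P // I p L} = s + 1
  point_card : ∀ p : P, Nat.card {L : B // I p L} = t + 1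
  two_points : ∀ p q : P, p ≠ q → ∀ L M : B, I p L → I q L → I p M → I q M → L = M
  projection : ∀ (p : P) (L : B), ¬ I p L →
    ∃! x : P × B, I x.1 L ∧ I p x.2 ∧ I x.1 x.2

/-- **There is no finite generalized quadrangle of order `(s, s ^ 2 - s)` with `s ≥ 3`.** For
`s = 4` this is the order `(4, 12)`. -/
theorem result (s t : ℕ) (hs : 3 ≤ s) (ht : t + s = s ^ 2) (P : Type u) (B : Type v) [Finite P]
    [Finite B] [Nonempty P] (I : P → B → Prop) : ¬ IsQuadrangle I s t := by
  classical
  intro h0
  have h : IsGQ I s t := ⟨h0.1, h0.2, h0.3, h0.4⟩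
  have := Fintype.ofFinite P
  have := Fintype.ofFinite B
  have hA := gqMat h
  refine Pool.Agent.H253_GQ.no_GQMat s hs (Af I) ?_
  have e : (s : ℝ) ^ 2 - s + 1 = (t : ℝ) + 1 := by
    have : ((t + s : ℕ) : ℝ) = ((s ^ 2 : ℕ) : ℝ) := by rw [ht]
    push_cast at this
    linarith
  rw [e]
  exact hA

end Pool.Agent.Results.MP_a3aa3c_co.NoGQSquareMinusS
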